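import Pool.Agent.U331.FS.F
import Pool.Agent.Results.MP_3923f3_nt.OneLargeCoefficient

/-!
# Baker's constant: ALL integral combinations of an infinite sequence in every dense set as large coefficients

We show that EVERY set `B` of natural numbers with at least `c M / (1 + log M) ^ b` elements up to `M` for all large `M` contains the
terms of an infinite sequence `a_n`, growing at most as `exp (K l ^ n)`, where `l > 1` is arbitrary and `K` does not depend on `B`, with
the following property. For ALL nonzero integral vectors `u` with finite support and entries of absolute value at most `H` and for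
`v = |∑ uᵢ aᵢ|`, ALL admissible equations `a p + b q + c r = d` with `||c| - v| ≤ (1 + log v) ^ A` and `|a|, |b| ≤ (log |c|) ^ T`, with arbitrary
`d`, have a solution in primes with `max (p, q, r) ≤ 3 |d| + m ^ (1 + ε)`: the conjectured exponent. There is no exception among the
infinitely many combinations.

Proof: a greedy choice. At the step `n` there are at most `(2 H + 1) ^ (n + 1)` conditions for the new term, each of them excludes at
most twice as many integers as there are integers near the exceptions of the starting result `OneLargeCoefficient`, and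
this number is smaller than the number of the elements of `B` by an arbitrary power of the logarithm (`Pool.Agent.U331.FS`).
-/

set_option autoImplicit false

namespace Pool.Agent.Results.MP_3923f3_nt.AllCombinations

open Pool.Agent.U331.FS (AllSumsLog all_sums_log_nat)
open Pool.Agent.Y883.T5
open Pool.Agent.Y883.T6

/-- ALL admissible equations `a p + b q + c r = d` with `||c| - v| ≤ W` and `|a|, |b| ≤ (log |c|) ^ T` have a solution in primes with
`max (p, q, r) ≤ 3 |d| + m ^ (1 + ε)`. -/
def Near (ε : ℝ) (T : ℕ) (W v : ℝ) : Prop :=
  ∀ a b c d : ℤ, Admissible a b c d → |(c.natAbs : ℝ) - v| ≤ W →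
    |(a : ℝ)| ≤ Real.log |(c : ℝ)| ^ T → |(b : ℝ)| ≤ Real.log |(c : ℝ)| ^ T → SmallSolution (1 + ε) a b c d

/-- **Theorem.** For all `ε > 0` and `T` the property `Near ε T` holds for all combinations with bounded coefficients of an
infinite sequence, growing at most as `exp (K l ^ n)`, in every dense set (`AllSumsLog`). -/
theorem result (ε : ℝ) (hε : 0 < ε) (T : ℕ) : AllSumsLog (Near ε T) := by
  classical
  obtain ⟨D, -, -, h3⟩ := OneLargeCoefficient.result
  refine (all_sums_log_nat (Good := fun n : ℕ => ∀ a b c d : ℤ, Admissible a b c d → c.natAbs = n →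
    |(a : ℝ)| ≤ Real.log |(c : ℝ)| ^ T → |(b : ℝ)| ≤ Real.log |(c : ℝ)| ^ T →
    SmallSolution (1 + ε) a b c d) (fun U => ?_)).mono (fun W x _ h' a b c d hadm hc ha hb => ?_)
  · obtain ⟨X₀, h⟩ := h3 ε hε U T
    refine ⟨X₀, fun X hX => ?_⟩
    refine le_trans (le_of_eq ?_) (h X hX)
    rw [← Set.ncard_coe_finset]
    congr 2
    ext n
    simp only [Finset.coe_filter, Finset.mem_Icc, Set.mem_ofPred_eq, and_assoc]
  · have hc0 : 1 ≤ c.natAbs := Int.natAbs_pos.2 hadm.c_ne
    exact h' c.natAbs hc0 hc a b c d hadm rfl ha hb

end Pool.Agent.Results.MP_3923f3_nt.AllCombinations
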