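import Pool.Agent.Results.MP_3923f3_nt.OneLargeCoefficient
import Pool.Agent.U513.AP.Log

/-!
# Baker's constant: large coefficients near the numerators and denominators of Diophantine approximations

Let `α ∈ ℝ ^ d` and consider all its approximations `(k, u_1, …, u_d)` with `|k α_i - γ_i - u_i| ≤ k ^ (-τ)`; for `d = 1`, `γ = 0`,
`τ = 1` these contain the denominators and numerators of all the convergents of the continued fraction of `α`, for `τ = 1 / d` all
the best simultaneous approximations, and for larger `τ` the very good approximations of the very well approximable `α`, which form a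
set of dimension `s = (d + 1) / (1 + τ) < d` and of infinite Hausdorff measure in this dimension (Jarník). We show that for all `α`
outside of a set of Hausdorff measure ZERO in the dimension `s`, ALL the admissible equations `a p + b q + c r = e` whose coefficient `c`
has an absolute value at a distance of at most `(log k) ^ W` from `g_0 + g k + h_1 u_1 + ⋯ + h_d u_d`, for every integral affine form with
`(g, h) ≠ 0` and all these approximations with large `k`, and with `|a|, |b| ≤ (log |c|) ^ T` and arbitrary `e`, have a solution in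
primes with `max(p, q, r) ≤ 3 |e| + m ^ (1 + ε)`, `m = max(3, |a|, |b|, |c|)`, the conjectured exponent; this holds for every `ε > 0`, `T`
and `W`.

Proof. The theorem `OneLargeCoefficient` of this page in the starting library bounds the number of the exceptional `|c| ≤ X` by
`X / (log X) ^ A` for all `A`. The integral vectors `(k, u)` with `k ≈ X` and a value of the form near an exceptional number are
counted, and the sets of the `α` approximated by them, cubes of side `2 X ^ (- 1 - τ)`, are used as the covers in the definition of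
the Hausdorff measure (`U513/AP/Log`). The numbers `k`, `u` have the density zero for a given `α`, so that the bound for the number of
exceptional `|c|` alone does not say anything about them.
-/

set_option autoImplicit false

open Finset Filter MeasureTheory

namespace Pool.Agent.Results.MP_3923f3_nt.Approximations

/-- Admissible quadruples: `a`, `b`, `c` are nonzero and not all of the same sign, `a + b + c - e` is even, and
`gcd(a, b, c) = gcd(e, a, b) = gcd(e, a, c) = gcd(e, b, c) = 1`. -/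
def Admissible (a b c e : ℤ) : Prop :=
  (a ≠ 0 ∧ b ≠ 0 ∧ c ≠ 0) ∧ ¬ (0 < a ∧ 0 < b ∧ 0 < c) ∧ ¬ (a < 0 ∧ b < 0 ∧ c < 0) ∧ Even (a + b + c - e) ∧
    Int.gcd (Int.gcd a b) c = 1 ∧ Int.gcd (Int.gcd e a) b = 1 ∧ Int.gcd (Int.gcd e a) c = 1 ∧ Int.gcd (Int.gcd e b) c = 1

/-- `a p + b q + c r = e` has a solution in primes with `max(p, q, r) ≤ 3 |e| + m ^ μ`, `m = max(3, |a|, |b|, |c|)`. -/
def SmallSolution (μ : ℝ) (a b c e : ℤ) : Prop :=
  ∃ p q r : ℕ, p.Prime ∧ q.Prime ∧ r.Prime ∧ a * p + b * q + c * r = e ∧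
    ((max p (max q r) : ℕ) : ℝ) ≤ 3 * |(e : ℝ)| + ((max 3 (max |a| (max |b| |c|)) : ℤ) : ℝ) ^ μ

/-- `(k, u)` is an approximation of `α` of exponent `τ` and shift `γ`: `|k α_i - γ_i - u_i| ≤ k ^ (-τ)` for all `i`. -/
def Approx {d : ℕ} (τ : ℝ) (γ α : Fin d → ℝ) (k : ℕ) (u : Fin d → ℤ) : Prop :=
  ∀ i, |(k : ℝ) * α i - γ i - u i| ≤ (k : ℝ) ^ (-τ)

/-- the absolute value `n` of the large coefficient -/
def Good (ε : ℝ) (T n : ℕ) : Prop :=
  ∀ a b c e : ℤ, Admissible a b c e → c.natAbs = n → |(a : ℝ)| ≤ Real.log |(c : ℝ)| ^ T →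
    |(b : ℝ)| ≤ Real.log |(c : ℝ)| ^ T → SmallSolution (1 + ε) a b c e

lemma few (ε : ℝ) (hε : 0 < ε) (T A : ℕ) : Pool.Agent.U513.AP.FewLog {n | ¬ Good ε T n} A := by
  classical
  obtain ⟨D, -, -, h3⟩ := OneLargeCoefficient.result
  obtain ⟨X₀, h⟩ := h3 ε hε A T
  refine Pool.Agent.U513.AP.fewLog_of ⟨X₀, fun X hX => le_trans (Nat.cast_le.2 ?_) (h X hX)⟩
  rw [← Set.ncard_coe_finset]
  refine Set.ncard_le_ncard ?_ (Finset.finite_toSet _)
  rintro n ⟨hn, hn1, hn2⟩
  rw [mem_coe, mem_filter, mem_Icc]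
  refine ⟨⟨hn1, hn2⟩, fun hcon => hn ?_⟩
  intro a b c e hadm hc ha hb
  obtain ⟨⟨g1, g2, g3⟩, g4, g5, g6, g7, g8, g9, g10⟩ := hadm
  exact hcon a b c e ⟨g1, g2, g3, g4, g5, g6, g7, g8, g9, g10⟩ hc ha hb

/-- **The conjectured exponent for the coefficients near the approximations of almost all points.** For all `d`, `τ ≥ 0` and `γ ∈ ℝ ^ d`
there is a set `E` of Hausdorff measure zero in the dimension `(d + 1) / (1 + τ)` (of Lebesgue measure zero if `d τ ≥ 1`), such that for
all `α ∉ E`, all `ε > 0`, `T`, `W` and all the integral affine forms `g₀ + g x + ∑ h_i y_i` with `(g, h) ≠ 0`, for all large `k` and all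
integral `u` with `|k α_i - γ_i - u_i| ≤ k ^ (-τ)`: ALL the admissible quadruples `(a, b, c, e)` with `||c| - (g₀ + g k + ∑ h_i u_i)| ≤
(log k) ^ W` and `|a|, |b| ≤ (log |c|) ^ T` have `SmallSolution (1 + ε)`. -/
theorem result : ∀ (d : ℕ) (τ : ℝ) (γ : Fin d → ℝ), 0 ≤ τ →
    ∃ E : Set (Fin d → ℝ), μH[((d : ℝ) + 1) / (1 + τ)] E = 0 ∧ (1 ≤ d * τ → volume E = 0) ∧
      ∀ α, α ∉ E → ∀ (ε : ℝ) (T W : ℕ), 0 < ε → ∀ (g₀ g : ℤ) (h : Fin d → ℤ), ¬ (g = 0 ∧ h = 0) →
        ∀ᶠ k : ℕ in atTop, ∀ u : Fin d → ℤ, Approx τ γ α k u → ∀ a b c e : ℤ, Admissible a b c e →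
          |((|c| : ℤ) : ℝ) - (g₀ + g * k + ∑ i, h i * u i : ℤ)| ≤ Real.log k ^ W →
            |(a : ℝ)| ≤ Real.log |(c : ℝ)| ^ T → |(b : ℝ)| ≤ Real.log |(c : ℝ)| ^ T → SmallSolution (1 + ε) a b c e := by
  classical
  intro d τ γ hτ
  choose E e1 e2 e3 using fun (j T : ℕ) => Pool.Agent.U513.AP.null_forms_all
    (few (1 / ((j : ℝ) + 1)) (by positivity) T) hτ γ
  refine ⟨⋃ j, ⋃ T, E j T, measure_iUnion_null fun j => measure_iUnion_null fun T => e1 j T,
    fun hd => measure_iUnion_null fun j => measure_iUnion_null fun T => e2 j T hd, fun α hα ε T W hε g₀ g h hgh => ?_⟩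
  rw [Set.mem_iUnion, not_exists] at hα
  obtain ⟨j, hj⟩ := exists_nat_one_div_lt hε
  have hα := hα j
  rw [Set.mem_iUnion, not_exists] at hα
  filter_upwards [e3 j T α (hα T) W g₀ g h hgh] with k hk u hu a b c e hadm hle ha hb
  have hc1 : 1 ≤ c.natAbs := Int.natAbs_pos.2 hadm.1.2.2
  have hgood : Good (1 / ((j : ℝ) + 1)) T c.natAbs := by
    by_contra hbad
    refine hk u hu c.natAbs hbad hc1 ?_
    have e4 : ((c.natAbs : ℕ) : ℝ) = ((|c| : ℤ) : ℝ) := by rw [Nat.cast_natAbs]
    rw [e4]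
    exact hle
  obtain ⟨p, q, r, hp1, hq1, hr1, heq, hle2⟩ := hgood a b c e hadm rfl ha hb
  refine ⟨p, q, r, hp1, hq1, hr1, heq, hle2.trans ?_⟩
  have hm : (1 : ℝ) ≤ ((max 3 (max |a| (max |b| |c|)) : ℤ) : ℝ) := by
    have h1 : (1 : ℤ) ≤ max 3 (max |a| (max |b| |c|)) := le_trans (by norm_num) (le_max_left _ _)
    exact_mod_cast h1
  have := Real.rpow_le_rpow_of_exponent_le hm (show 1 + 1 / ((j : ℝ) + 1) ≤ 1 + ε by linarith)
  linarith

end Pool.Agent.Results.MP_3923f3_nt.Approximations
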