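import Mathlib

/-!
# Baker's constant is at least `log 13 / log 3 > 7 / 3`

The constant of Baker is the infimum `M` of the exponents `μ` for which EVERY admissible equation `a p + b q + c r = d` has a
solution in primes with `max(p, q, r) ≤ 3 |d| + m ^ μ`, `m = max(3, |a|, |b|, |c|)`. The equation `2 p + 3 q = r` is admissible, has
`m = 3`, and its smallest solution in primes is `2 · 2 + 3 · 3 = 13`. So `M ≥ log 13 / log 3 = 2.334...`, and the conjecture
`M = 1` is false for the constant as it is defined. (The example has small coefficients: it says nothing on the corresponding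
constant in which only the quadruples with a sufficiently large `m` are admitted.)
-/

set_option autoImplicit false

namespace Pool.Agent.Results.MP_3923f3_nt.LowerBound

/-- Admissible quadruples: `a`, `b`, `c` are nonzero and not all of the same sign, `a + b + c - d` is
even, and each of `gcd(a, b, c)`, `gcd(d, a, b)`, `gcd(d, a, c)`, `gcd(d, b, c)` equals `1`. -/
structure Admissible (a b c d : ℤ) : Prop where
  a_ne : a ≠ 0
  b_ne : b ≠ 0
  c_ne : c ≠ 0
  not_pos : ¬ (0 < a ∧ 0 < b ∧ 0 < c)
  not_neg : ¬ (a < 0 ∧ b < 0 ∧ c < 0)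
  even : Even (a + b + c - d)
  gcd_abc : Int.gcd (Int.gcd a b) c = 1
  gcd_dab : Int.gcd (Int.gcd d a) b = 1
  gcd_dac : Int.gcd (Int.gcd d a) c = 1
  gcd_dbc : Int.gcd (Int.gcd d b) c = 1

/-- The equation `a p + b q + c r = d` has a solution in primes with `max(p, q, r) ≤ 3 |d| + m ^ μ`,
`m = max(3, |a|, |b|, |c|)`. -/
def SmallSolution (μ : ℝ) (a b c d : ℤ) : Prop :=
  ∃ p q r : ℕ, p.Prime ∧ q.Prime ∧ r.Prime ∧ a * p + b * q + c * r = d ∧
    ((max p (max q r) : ℕ) : ℝ) ≤ 3 * |(d : ℝ)| + ((max 3 (max |a| (max |b| |c|)) : ℤ) : ℝ) ^ μ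

/-- The exponent `μ` is good. -/
def Good (μ : ℝ) : Prop := ∀ a b c d : ℤ, Admissible a b c d → SmallSolution μ a b c d

/-- `M` is Baker's constant: the infimum of the good exponents. -/
def IsBakerConstant (M : ℝ) : Prop := IsGLB {μ : ℝ | Good μ} M

lemma admissible : Admissible 2 3 (-1) 0 := by
  refine ⟨by norm_num, by norm_num, by norm_num, by norm_num, by norm_num, ⟨2, by norm_num⟩, ?_, ?_, ?_, ?_⟩ <;> decide

lemma thirteen {p q r : ℕ} (hp : p.Prime) (hq : q.Prime) (hr : r.Prime) (h : (2 : ℤ) * p + 3 * q + (-1) * r = 0) :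
    13 ≤ r := by
  have h1 : r = 2 * p + 3 * q := by omega
  have hp2 := hp.two_le
  rcases hq.eq_two_or_odd with h2 | h2
  · exfalso
    have h3 : 2 ∣ r := by rw [h1, h2]; omega
    have h4 := (Nat.prime_dvd_prime_iff_eq Nat.prime_two hr).1 h3
    omega
  · have := hq.two_le
    omega

lemma seven_thirds : (7 : ℝ) / 3 < Real.log 13 / Real.log 3 := by
  have h3 : 0 < Real.log 3 := Real.log_pos (by norm_num)
  rw [lt_div_iff₀ h3]
  have h : Real.log ((3 : ℝ) ^ 7) < Real.log ((13 : ℝ) ^ 3) := Real.log_lt_log (by norm_num) (by norm_num)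
  rw [Real.log_pow, Real.log_pow] at h
  push_cast at h
  linarith

/-- **Baker's constant is at least `log 13 / log 3 > 7 / 3`.** Every good exponent is at least `log 13 / log 3`, so Baker's
constant, the infimum of the good exponents, is at least `log 13 / log 3 > 7 / 3`; in particular it is not `1`. -/
theorem result : (∀ μ : ℝ, Good μ → Real.log 13 / Real.log 3 ≤ μ) ∧ (7 : ℝ) / 3 < Real.log 13 / Real.log 3 ∧
    ∀ M : ℝ, IsBakerConstant M → Real.log 13 / Real.log 3 ≤ M ∧ M ≠ 1 := by
  have key : ∀ μ : ℝ, Good μ → Real.log 13 / Real.log 3 ≤ μ := by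
    intro μ hμ
    obtain ⟨p, q, r, hp, hq, hr, he, hmax⟩ := hμ 2 3 (-1) 0 admissible
    have h13 := thirteen hp hq hr he
    have h1 : (13 : ℝ) ≤ ((max p (max q r) : ℕ) : ℝ) := by
      exact_mod_cast h13.trans ((le_max_right q r).trans (le_max_right p _))
    have hm : (max 3 (max |(2 : ℤ)| (max |3| |(-1)|)) : ℤ) = 3 := by decide
    rw [hm] at hmax
    have h2 : (13 : ℝ) ≤ (3 : ℝ) ^ μ := by
      have := h1.trans hmax
      simpa using this
    have h3 : 0 < Real.log 3 := Real.log_pos (by norm_num)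
    rw [div_le_iff₀ h3]
    have h4 := Real.log_le_log (by norm_num) h2
    rwa [Real.log_rpow (by norm_num)] at h4
  refine ⟨key, seven_thirds, fun M hM => ?_⟩
  have h1 : Real.log 13 / Real.log 3 ≤ M := hM.2 (fun μ hμ => key μ hμ)
  refine ⟨h1, fun h => ?_⟩
  have := seven_thirds
  rw [h] at h1
  linarith

end Pool.Agent.Results.MP_3923f3_nt.LowerBound
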