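import Pool.Agent.U449.BV.SV
import Pool.Agent.Results.MP_3923f3_nt.AlmostAllHomogeneous

/-!
# Small prime solutions of `a p + b q + c r = 0` for coefficients near the values of mixed polynomials on arbitrary dense sets

Let `ℓ` be a large prime, `f(x, y)` ANY polynomial of bounded degree over the field of `ℓ ^ 3` elements with a monomial which
contains both variables (for example `f = x y`), let `A`, `B` be ARBITRARY subsets of this field with at least `η ℓ ^ 3` elements,
and `g`, `h` ARBITRARY functions. For all but `η |A| |B|` of the pairs `(u, v)` in `A × B` and for ALL admissible quadruples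
`(a, b, c, 0)` such that `|a|`, `|b|`, `|c|` are at a distance of at most `W` from the least residues of the three coordinates of
`f(u, v) + g(u) + h(v)`: the equation `a p + b q + c r = 0` has a solution in primes `max(p, q, r) ≤ m ^ μ`, `m = max(3, |a|, |b|, |c|)`,
if `μ > 1/2` is fixed, and has none if `μ < 1/2` is fixed. More generally, this holds for the values `F(u, v)` of all vector functions
of two variables with few coincidences (`RareV`), on arbitrary dense finite sets.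

Since the sets and the functions `g` and `h` are arbitrary, the triples have no arithmetic structure, and a triple may be
taken by very many pairs. So the count of the exceptions (starting library) does not give the result directly. Proof: the
inequality of Cauchy and Schwarz; for most pairs `u, u'` the difference `F(u, v) - F(u', v)` is small for few `v`
(`Pool.Agent.U449.BV`).
-/

set_option autoImplicit false

namespace Pool.Agent.Results.MP_3923f3_nt.MixedOnDenseSets

open Finset Filter Topology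
open Pool.Agent.U449.BV (RareV dense_zero_v coordinates)
open Pool.Agent.Results.MP_3923f3_nt.AlmostAllHomogeneous (Admissible SmallSolution triples proportion)

/-- ALL integers `a, b, c` for which `(a, b, c, 0)` is admissible and `|a|`, `|b|`, `|c|` are at a distance of at most `W` from
`x 0`, `x 1`, `x 2` have the property `Q a b c`. -/
def Near (Q : ℤ → ℤ → ℤ → Prop) (W : ℝ) (x : Fin 3 → ℝ) : Prop :=
  ∀ a b c : ℤ, Admissible a b c 0 → |((|a| : ℤ) : ℝ) - x 0| ≤ W → |((|b| : ℤ) : ℝ) - x 1| ≤ W →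
    |((|c| : ℤ) : ℝ) - x 2| ≤ W → Q a b c

/-- On arbitrary finite sets `A`, `B` of at least `η X ^ 3` elements, for all functions `F` with `|F_i| ≤ X` and few coincidences, for
all but `η |A| |B|` of the pairs `Q` holds for ALL admissible triples near `F(u, v)`, if `X` is large. -/
def OnDenseProducts (Q : ℤ → ℤ → ℤ → Prop) : Prop :=
  ∀ (η W : ℝ) (D : ℕ), 0 < η → 1 ≤ W → ∃ X₀ : ℝ, ∀ X : ℝ, X₀ ≤ X → ∀ (α β : Type) (A : Finset α) (B : Finset β)
    (F : α → β → Fin 3 → ℝ), η * X ^ 3 ≤ A.card → η * X ^ 3 ≤ B.card → (∀ a ∈ A, ∀ b ∈ B, ∀ i, |F a b i| ≤ X) →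
    RareV D A B F → ({z : α × β | z.1 ∈ A ∧ z.2 ∈ B ∧ ¬ Near Q W (F z.1 z.2)}.ncard : ℝ) ≤ η * (A.card * B.card)

lemma ncard_filter (A : ℕ) (Q : ℤ → ℤ → ℤ → Prop) :
    (({t | t ∈ triples A ∧ Q t.1 t.2.1 t.2.2}.ncard : ℕ) : ℝ) = proportion A Q * (triples A).card := by
  classical
  have e : {t | t ∈ triples A ∧ Q t.1 t.2.1 t.2.2} =
      (((triples A).filter (fun t => Q t.1 t.2.1 t.2.2) : Finset (ℤ × ℤ × ℤ)) : Set (ℤ × ℤ × ℤ)) := by
    ext t
    simp
  rw [e, Set.ncard_coe_finset, proportion]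
  rcases Nat.eq_zero_or_pos (triples A).card with h | h
  · have h1 : ((triples A).filter (fun t => Q t.1 t.2.1 t.2.2)).card = 0 :=
      Nat.le_zero.1 ((card_filter_le _ _).trans h.le)
    rw [h1, h]
    simp
  · have h1 : ((triples A).card : ℝ) ≠ 0 := by positivity
    rw [div_mul_cancel₀ _ h1]

lemma compl (A : ℕ) (Q : ℤ → ℤ → ℤ → Prop) :
    (({t | t ∈ triples A ∧ ¬ Q t.1 t.2.1 t.2.2}.ncard : ℕ) : ℝ) = (1 - proportion A Q) * (triples A).card := by
  classical
  have e : (({t | t ∈ triples A ∧ ¬ Q t.1 t.2.1 t.2.2}.ncard : ℕ) : ℝ) +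
      ({t | t ∈ triples A ∧ Q t.1 t.2.1 t.2.2}.ncard : ℕ) = (triples A).card := by
    have e1 : {t | t ∈ triples A ∧ Q t.1 t.2.1 t.2.2} =
        (((triples A).filter (fun t => Q t.1 t.2.1 t.2.2) : Finset (ℤ × ℤ × ℤ)) : Set (ℤ × ℤ × ℤ)) := by
      ext t
      simp
    have e2 : {t | t ∈ triples A ∧ ¬ Q t.1 t.2.1 t.2.2} =
        (((triples A).filter (fun t => ¬ Q t.1 t.2.1 t.2.2) : Finset (ℤ × ℤ × ℤ)) : Set (ℤ × ℤ × ℤ)) := by
      ext t
      simp
    rw [e1, e2, Set.ncard_coe_finset, Set.ncard_coe_finset]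
    have := card_filter_add_card_filter_not (s := triples A) (fun t => Q t.1 t.2.1 t.2.2)
    rw [← this]
    push_cast
    ring
  rw [ncard_filter] at e
  linarith

lemma card_triples (A : ℕ) : (triples A).card ≤ (2 * A + 1) ^ 3 := by
  classical
  refine (card_filter_le _ _).trans (le_of_eq ?_)
  rw [card_product, card_product, Int.card_Icc]
  have : ((A : ℤ) + 1 - -(A : ℤ)).toNat = 2 * A + 1 := by omega
  rw [this]
  ring

lemma on_dense (Q : ℤ → ℤ → ℤ → Prop) (hQ : ∀ ε : ℝ, 0 < ε → ∃ A₀ : ℕ, ∀ A : ℕ, A₀ ≤ A →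
    (({t | t ∈ triples A ∧ ¬ Q t.1 t.2.1 t.2.2}.ncard : ℕ) : ℝ) ≤ ε * (triples A).card) : OnDenseProducts Q := by
  classical
  intro η W D hη hW
  obtain ⟨S, hS⟩ : ∃ S : Set (ℤ × ℤ × ℤ), S = {t | Admissible t.1 t.2.1 t.2.2 0 ∧ ¬ Q t.1 t.2.1 t.2.2} := ⟨_, rfl⟩
  obtain ⟨h, hh⟩ : ∃ h : ℤ × ℤ × ℤ → Fin 3 → ℝ,
      h = fun t => ![((|t.1| : ℤ) : ℝ), ((|t.2.1| : ℤ) : ℝ), ((|t.2.2| : ℤ) : ℝ)] := ⟨_, rfl⟩
  have hcount : ∀ ε : ℝ, 0 < ε → ∃ X₀ : ℝ, ∀ X : ℝ, X₀ ≤ X →
      {t | t ∈ S ∧ ∀ i, |h t i| ≤ X}.Finite ∧ ({t | t ∈ S ∧ ∀ i, |h t i| ≤ X}.ncard : ℝ) ≤ ε * X ^ 3 := by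
    intro ε hε
    obtain ⟨A₀, hA₀⟩ := hQ (ε / 27) (by positivity)
    refine ⟨max 1 ((A₀ : ℝ) + 1), fun X hX => ?_⟩
    have hX1 : 1 ≤ X := (le_max_left _ _).trans hX
    have hXA : (A₀ : ℝ) + 1 ≤ X := (le_max_right _ _).trans hX
    have hX0 : 0 < X := by linarith
    obtain ⟨A, hA⟩ : ∃ A : ℕ, A = ⌊X⌋₊ := ⟨_, rfl⟩
    have hAX : (A : ℝ) ≤ X := by rw [hA]; exact Nat.floor_le hX0.le
    have hAA : A₀ ≤ A := by rw [hA]; exact Nat.le_floor (by linarith)
    have hle : ∀ m : ℤ, |((|m| : ℤ) : ℝ)| ≤ X → |m| ≤ (A : ℤ) := by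
      intro m hm
      have g6 : (m.natAbs : ℝ) ≤ X := by
        rw [Nat.cast_natAbs, Int.cast_abs]
        rw [Int.cast_abs, abs_abs] at hm
        exact hm
      have g7 : m.natAbs ≤ A := by rw [hA]; exact Nat.le_floor g6
      rw [Int.abs_eq_natAbs]
      exact_mod_cast g7
    have hsub : {t | t ∈ S ∧ ∀ i, |h t i| ≤ X} ⊆ {t | t ∈ triples A ∧ ¬ Q t.1 t.2.1 t.2.2} := by
      rintro ⟨a, b, c⟩ ⟨ht, htX⟩
      rw [hS] at ht
      rw [hh] at htX
      have h0 := htX 0
      have h1 := htX 1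
      have h2 := htX 2
      simp only [Matrix.cons_val_zero, Matrix.cons_val_one, Matrix.cons_val] at h0 h1 h2
      refine ⟨?_, ht.2⟩
      have k0 := abs_le.1 (hle a h0)
      have k1 := abs_le.1 (hle b h1)
      have k2 := abs_le.1 (hle c h2)
      unfold triples
      rw [mem_filter, mem_product, mem_product, mem_Icc, mem_Icc, mem_Icc]
      exact ⟨⟨k0, k1, k2⟩, ht.1⟩
    have hfin : {t | t ∈ triples A ∧ ¬ Q t.1 t.2.1 t.2.2}.Finite :=
      (triples A).finite_toSet.subset (fun t ht => ht.1)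
    refine ⟨hfin.subset hsub, ?_⟩
    have h3 : ((triples A).card : ℝ) ≤ (3 * X) ^ 3 := by
      have h4 : ((2 * A + 1 : ℕ) : ℝ) ≤ 3 * X := by
        push_cast
        linarith
      calc ((triples A).card : ℝ) ≤ (((2 * A + 1) ^ 3 : ℕ) : ℝ) := by exact_mod_cast card_triples A
        _ = ((2 * A + 1 : ℕ) : ℝ) ^ 3 := by rw [Nat.cast_pow]
        _ ≤ (3 * X) ^ 3 := pow_le_pow_left₀ (Nat.cast_nonneg _) h4 3
    calc ({t | t ∈ S ∧ ∀ i, |h t i| ≤ X}.ncard : ℝ) ≤ ({t | t ∈ triples A ∧ ¬ Q t.1 t.2.1 t.2.2}.ncard : ℝ) := by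
          exact_mod_cast Set.ncard_le_ncard hsub hfin
      _ ≤ ε / 27 * (triples A).card := hA₀ A hAA
      _ ≤ ε / 27 * (3 * X) ^ 3 := mul_le_mul_of_nonneg_left h3 (by positivity)
      _ = ε * X ^ 3 := by ring
  obtain ⟨X₀, hX₀⟩ := dense_zero_v S h hcount η W D hη hW
  refine ⟨X₀, fun X hX α β A B F hA hB hF hR => ?_⟩
  refine le_trans (le_of_eq ?_) (hX₀ X hX α β A B F hA hB hF hR)
  congr 2
  ext z
  simp only [Set.mem_ofPred_eq, Near, hS, hh, Fin.forall_fin_succ]
  push Not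
  refine and_congr_right fun _ => and_congr_right fun _ => ⟨?_, ?_⟩
  · rintro ⟨a, b, c, h1, h2, h3, h4, h5⟩
    refine ⟨(a, b, c), ⟨h1, h5⟩, ?_⟩
    have h6 := And.intro h2 (And.intro h3 h4)
    simpa using h6
  · rintro ⟨⟨a, b, c⟩, ⟨h1, h5⟩, h2⟩
    have h3 : |((|a| : ℤ) : ℝ) - F z.1 z.2 0| ≤ W ∧ |((|b| : ℤ) : ℝ) - F z.1 z.2 1| ≤ W ∧
        |((|c| : ℤ) : ℝ) - F z.1 z.2 2| ≤ W := by simpa using h2
    exact ⟨a, b, c, h1, h3.1, h3.2.1, h3.2.2, h5⟩

/-- **Theorem.** (1) For `μ > 1/2`, on arbitrary dense sets and for functions with few coincidences, for almost all pairs, for ALL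
admissible `(a, b, c, 0)` near the value of the function, the equation `a p + b q + c r = 0` has a solution in primes
`max(p, q, r) ≤ m ^ μ`, `m = max(3, |a|, |b|, |c|)`. (2) For `μ < 1/2` there is no such solution, for almost all pairs and ALL
admissible `(a, b, c, 0)` near the value.
The triples of the least residues modulo `p` of the coordinates (with respect to a basis over the field of `p` elements) of
`f(a, b) + g(a) + h(b)` in a field of `p ^ k` elements, `k = 3`, are such a function, with `X = p`, for all polynomials `f` over this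
field with a monomial which contains both variables, arbitrary functions `g` and `h`, and arbitrary finite subsets. -/
theorem result :
    (∀ μ : ℝ, 1 / 2 < μ → OnDenseProducts (fun a b c => SmallSolution μ a b c 0)) ∧
    (∀ μ : ℝ, μ < 1 / 2 → OnDenseProducts (fun a b c => ¬ SmallSolution μ a b c 0)) ∧
    ∀ (p : ℕ) [Fact p.Prime] (k : ℕ) (K : Type) [Field K] [Algebra (ZMod p) K] (e : Module.Basis (Fin k) (ZMod p) K)
      (d : ℕ) (f : MvPolynomial (Fin 2) K), f.totalDegree ≤ d → (∃ m ∈ f.support, m 0 ≠ 0 ∧ m 1 ≠ 0) →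
      ∀ (g h : K → K) (A B : Finset K),
        RareV d A B (fun a b i => (((e.repr (MvPolynomial.eval ![a, b] f + g a + h b) i).val : ℕ) : ℝ)) := by
  obtain ⟨-, -, -, h1, h0⟩ := AlmostAllHomogeneous.result
  refine ⟨fun μ hμ => on_dense _ fun ε hε => ?_, fun μ hμ => on_dense _ fun ε hε => ?_, coordinates⟩
  · have h2 := (h1 μ hμ).eventually (lt_mem_nhds (show 1 - ε < 1 by linarith))
    rw [eventually_atTop] at h2
    obtain ⟨A₀, hA₀⟩ := h2
    refine ⟨A₀, fun A hA => ?_⟩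
    refine (compl A (fun a b c => SmallSolution μ a b c 0)).le.trans ?_
    exact mul_le_mul_of_nonneg_right (by linarith [hA₀ A hA]) (Nat.cast_nonneg _)
  · have h2 := (h0 μ hμ).eventually (gt_mem_nhds hε)
    rw [eventually_atTop] at h2
    obtain ⟨A₀, hA₀⟩ := h2
    refine ⟨A₀, fun A hA => ?_⟩
    simp only [not_not]
    refine (ncard_filter A (fun a b c => SmallSolution μ a b c 0)).le.trans ?_
    exact mul_le_mul_of_nonneg_right (hA₀ A hA).le (Nat.cast_nonneg _)

end Pool.Agent.Results.MP_3923f3_nt.MixedOnDenseSets
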